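import Mathlib
import Pool.Agent.W285.UB.Stm
import Pool.Agent.Helper259.AbsHt

/-!
Project UB: from a point over an extension to points of `Qbar`; heights and preperiodic points.
-/

set_option autoImplicit false

namespace Pool.Agent.W540.UB

open Pool.Agent.W285.UB NumberField Height Module Pool.Agent.Helper259.AbsHt

lemma fval_smul {S R : Type} [CommRing S] [CommRing R] (g : S →+* R) {d : ℕ}
    (f : Fin (d + 1) → S) (v : Fin 2 → R) (s : R) :
    fval g f (s • v) = s ^ d * fval g f v := by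
  unfold fval
  rw [Finset.mul_sum]
  refine Finset.sum_congr rfl fun i _ => ?_
  have hi : (i : ℕ) ≤ d := Nat.lt_succ_iff.mp i.2
  simp only [Pi.smul_apply, smul_eq_mul, mul_pow]
  calc g (f i) * (s ^ (i : ℕ) * v 0 ^ (i : ℕ)) * (s ^ (d - (i : ℕ)) * v 1 ^ (d - (i : ℕ)))
      = (s ^ (i : ℕ) * s ^ (d - (i : ℕ))) * (g (f i) * v 0 ^ (i : ℕ) * v 1 ^ (d - (i : ℕ))) := by
        ring
    _ = s ^ d * (g (f i) * v 0 ^ (i : ℕ) * v 1 ^ (d - (i : ℕ))) := by
        rw [← pow_add, Nat.add_sub_cancel' hi]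

lemma pval_smul {S R : Type} [CommRing S] [CommRing R] (g : S →+* R) {d : ℕ}
    (φ : Fin 2 → Fin (d + 1) → S) (v : Fin 2 → R) (s : R) :
    pval g φ (s • v) = s ^ d • pval g φ v := by
  funext a
  simp only [pval, Pi.smul_apply, smul_eq_mul, fval_smul]

lemma map_pval {S R R' : Type} [CommRing S] [CommRing R] [CommRing R'] (g : S →+* R)
    (τ : R →+* R') {d : ℕ} (φ : Fin 2 → Fin (d + 1) → S) (v : Fin 2 → R) :
    (fun a => τ (pval g φ v a)) = pval (τ.comp g) φ (fun i => τ (v i)) := by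
  funext a
  simp only [pval, fval, map_sum, map_mul, map_pow, RingHom.comp_apply]

lemma ht_smul (x : Fin 2 → Qbar) {c : Qbar} (hc : c ≠ 0) : ht (c • x) = ht x := by
  unfold ht
  rw [absLogHeight_smul x hc]

lemma norm_pt {L : Type} [Field L] [NumberField L] (τ : L →+* Qbar) (E : ℕ)
    (hE : finrank ℚ L ≤ E) (x : Fin 2 → L) (hx : x ≠ 0) :
    ∃ u ∈ pt E, ∃ t : Qbar, t ≠ 0 ∧ (fun i => τ (x i)) = t • u := by
  by_cases h1 : x 1 = 0
  · have h0 : x 0 ≠ 0 := by
      intro h0
      apply hx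
      funext i
      fin_cases i
      · exact h0
      · exact h1
    refine ⟨![1, 0], Or.inl rfl, τ (x 0), (map_ne_zero τ).mpr h0, ?_⟩
    funext i
    fin_cases i
    · simp
    · simp [h1]
  · refine ⟨![τ (x 0 / x 1), 1], Or.inr ⟨τ (x 0 / x 1), ?_, rfl⟩, τ (x 1),
      (map_ne_zero τ).mpr h1, ?_⟩
    · have e1 : minpoly ℚ (τ (x 0 / x 1)) = minpoly ℚ (x 0 / x 1) :=
        minpoly.algHom_eq (RingHom.toRatAlgHom τ) τ.injective (x 0 / x 1)
      rw [e1]
      exact (minpoly.natDegree_le _).trans hE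
    · funext i
      have h1' : τ (x 1) ≠ 0 := (map_ne_zero τ).mpr h1
      fin_cases i
      · simp only [Fin.zero_eta, Pi.smul_apply, Matrix.cons_val_zero, smul_eq_mul, map_div₀]
        field_simp
      · simp

/-- **EMB.** -/
theorem emb : S_EMB := by
  intro K _ _ ι d D φ hφ L _ _ _ hLD v hv hle
  have hfin : FiniteDimensional K L := FiniteDimensional.right ℚ K L
  obtain ⟨τ, hτ⟩ : ∃ τ : L →+* Qbar, ∀ x : K, τ (algebraMap K L x) = ι x := by
    let _ : Algebra K Qbar := ι.toAlgebra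
    have : Algebra.IsAlgebraic K L := Algebra.IsAlgebraic.of_finite K L
    let τ : L →ₐ[K] Qbar := IsAlgClosed.lift
    exact ⟨τ.toRingHom, fun x => τ.commutes x⟩
  set g : 𝓞 K →+* L := (algebraMap K L).comp (algebraMap (𝓞 K) K) with hg
  have hcomp : τ.comp g = io ι := by
    ext x
    simp only [hg, io, RingHom.comp_apply, hτ]
  set v' : Fin 2 → Qbar := fun i => τ (v i) with hv'
  have hdim : finrank ℚ L ≤ D * finrank ℚ K := by
    rw [← finrank_mul_finrank ℚ K L, mul_comm]
    exact Nat.mul_le_mul_right _ hLD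
  have hdeg : (0 : ℝ) < finrank ℚ L := by exact_mod_cast Module.finrank_pos
  have hpv : (fun a => τ (pval g φ v a)) = pval (io ι) φ v' := by
    rw [map_pval, hcomp]
  have hht : ht (pval (io ι) φ v') ≤ ht v' := by
    rw [← hpv]
    unfold ht
    rw [absLogHeight_eq L τ, absLogHeight_eq L τ v]
    refine Real.exp_le_exp.mpr (div_le_div_of_nonneg_right ?_ hdeg.le)
    unfold logHeight
    exact Real.log_le_log (mulHeight_pos _) hle
  have hv0 : v' ≠ 0 := by
    intro h
    apply hv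
    funext i
    have := congrFun h i
    simpa [hv'] using this
  have hp0 : pval g φ v ≠ 0 := by
    intro h
    apply hv0
    refine hφ v' ?_
    rw [← hpv, h]
    funext a
    simp
  obtain ⟨w, hw, s, hs, hsw⟩ := norm_pt τ (D * finrank ℚ K) hdim v hv
  obtain ⟨u, hu, t, ht0, htu⟩ := norm_pt τ (D * finrank ℚ K) hdim (pval g φ v) hp0
  rw [hpv] at htu
  have hsw' : v' = s • w := hsw
  refine ⟨w, hw, u, hu, ?_, (s ^ d)⁻¹ * t, ?_⟩
  · rw [← ht_smul u ht0, ← htu, ← ht_smul w hs, ← hsw']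
    exact hht
  · have h1 : pval (io ι) φ v' = s ^ d • pval (io ι) φ w := by
      rw [hsw', pval_smul]
    have h2 : s ^ d ≠ 0 := pow_ne_zero _ hs
    rw [mul_smul, ← htu, h1, smul_smul, inv_mul_cancel₀ h2, one_smul]

/-- **PER.** -/
theorem per : S_PER := by
  intro K _ _ d φ L _ _ _ hlt
  rintro ⟨v, hv, m, n, hmn, c, hc, heq⟩
  set F := pval ((algebraMap K L).comp (algebraMap (𝓞 K) K)) φ with hF
  have hne : ∀ x : Fin 2 → L, x ≠ 0 → F x ≠ 0 := by
    intro x hx h0
    have h1 := hlt x hx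
    rw [h0, mulHeight_zero] at h1
    exact absurd (one_le_mulHeight x) (not_le.mpr h1)
  have hit : ∀ k, F^[k] v ≠ 0 := by
    intro k
    induction k with
    | zero => exact hv
    | succ k ih =>
      rw [Function.iterate_succ_apply']
      exact hne _ ih
  have hmono : StrictMono fun k => mulHeight (F^[k] v) := by
    refine strictMono_nat_of_lt_succ fun k => ?_
    rw [Function.iterate_succ_apply']
    exact hlt _ (hit k)
  have h1 : mulHeight (F^[m] v) < mulHeight (F^[n] v) := hmono hmn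
  rw [heq, mulHeight_smul_eq_mulHeight _ hc] at h1
  exact lt_irrefl _ h1

end Pool.Agent.W540.UB
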